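import Mathlib

set_option autoImplicit false

/-! MP_dab459_al, module M5b, part 1: abstract counting lemmas (solutions of the board jobs 32726,
32926, 32927, 32730, 32928, 33423). -/

namespace PW

open Classical in
/-- TARGET -/
theorem pw_count1 {Cl : Type*} (len : Cl → ℕ) (X X0 : Set Cl) (hX0 : X0 ⊆ X)
    (hfin : ∀ n, {c | c ∈ X ∧ len c = n}.Finite)
    (Desc : Cl → Cl → Prop) (S : ℕ → ℝ) (hS0 : ∀ Δ, 0 ≤ S Δ)
    (hdesc : ∀ c ∈ X, ∃ c0 ∈ X0, Desc c c0 ∧ len c0 ≤ len c)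
    (hS : ∀ c0 ∈ X0, ∀ Δ, {c | Desc c c0 ∧ len c = len c0 + Δ}.Finite ∧
      ({c | Desc c c0 ∧ len c = len c0 + Δ}.ncard : ℝ) ≤ S Δ) (n : ℕ) :
    ({c | c ∈ X ∧ len c = n}.ncard : ℝ) ≤
      ∑ Δ ∈ Finset.range (n + 1), S Δ * ({c | c ∈ X0 ∧ len c = n - Δ}.ncard : ℝ) := by
  have hBf : ∀ Δ, {c | c ∈ X0 ∧ len c = n - Δ}.Finite := fun Δ =>
    (hfin (n - Δ)).subset fun c hc => ⟨hX0 hc.1, hc.2⟩
  have hsub : {c | c ∈ X ∧ len c = n} ⊆ ⋃ Δ ∈ Finset.range (n + 1),
      ⋃ c0 ∈ (hBf Δ).toFinset, {c | Desc c c0 ∧ len c = len c0 + Δ} := by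
    rintro c ⟨hc, hn⟩
    obtain ⟨c0, hc0, hd, hle⟩ := hdesc c hc
    simp only [Set.mem_iUnion]
    refine ⟨n - len c0, Finset.mem_range.mpr (by omega), c0, ?_, hd, by omega⟩
    rw [Set.Finite.mem_toFinset]
    exact ⟨hc0, by omega⟩
  have hfinU : (⋃ Δ ∈ Finset.range (n + 1),
      ⋃ c0 ∈ (hBf Δ).toFinset, {c | Desc c c0 ∧ len c = len c0 + Δ}).Finite := by
    refine Set.Finite.biUnion (Finset.finite_toSet _) fun Δ _ => ?_
    refine Set.Finite.biUnion (Finset.finite_toSet _) fun c0 hc0 => ?_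
    have h1 : c0 ∈ (hBf Δ).toFinset := hc0
    rw [Set.Finite.mem_toFinset] at h1
    exact (hS c0 h1.1 Δ).1
  have h1 : {c | c ∈ X ∧ len c = n}.ncard ≤ ∑ Δ ∈ Finset.range (n + 1),
      ∑ c0 ∈ (hBf Δ).toFinset, {c | Desc c c0 ∧ len c = len c0 + Δ}.ncard := by
    refine (Set.ncard_le_ncard hsub hfinU).trans ?_
    refine (Finset.set_ncard_biUnion_le _ _).trans ?_
    exact Finset.sum_le_sum fun Δ _ => Finset.set_ncard_biUnion_le _ _
  have h2 : ({c | c ∈ X ∧ len c = n}.ncard : ℝ) ≤ ∑ Δ ∈ Finset.range (n + 1),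
      ∑ c0 ∈ (hBf Δ).toFinset, ({c | Desc c c0 ∧ len c = len c0 + Δ}.ncard : ℝ) := by
    exact_mod_cast h1
  refine h2.trans (Finset.sum_le_sum fun Δ _ => ?_)
  have h3 : ∑ c0 ∈ (hBf Δ).toFinset, ({c | Desc c c0 ∧ len c = len c0 + Δ}.ncard : ℝ)
      ≤ ∑ c0 ∈ (hBf Δ).toFinset, S Δ := by
    refine Finset.sum_le_sum fun c0 hc0 => ?_
    rw [Set.Finite.mem_toFinset] at hc0
    exact (hS c0 hc0.1 Δ).2
  refine h3.trans (le_of_eq ?_)
  rw [Finset.sum_const, nsmul_eq_mul, Set.ncard_eq_toFinset_card _ (hBf Δ), mul_comm]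

open Classical in
/-- TARGET -/
theorem pw_count2b {Cl Φ : Type*} [Fintype Φ] (len : Cl → ℕ) (act : Φ → Cl → Cl)
    (X X0 Low : Set Cl) (hfin : ∀ n, {c | c ∈ X ∧ len c = n}.Finite)
    (hlow : ∀ n, {c | c ∈ Low ∧ len c = n}.Finite) (D : ℕ)
    (hstep : ∀ c0 ∈ X0, (∃ φ, ∃ c1 ∈ X, len c1 + D ≤ len c0 ∧ act φ c1 = c0) ∨ c0 ∈ Low) (m : ℕ) :
    ({c | c ∈ X0 ∧ len c = m}.ncard : ℝ) ≤
      (Fintype.card Φ : ℝ) * ∑ j ∈ (Finset.range (m + 1)).filter (fun j => j + D ≤ m),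
          ({c | c ∈ X ∧ len c = j}.ncard : ℝ) + ({c | c ∈ Low ∧ len c = m}.ncard : ℝ) := by
  set R : Finset ℕ := (Finset.range (m + 1)).filter (fun j => j + D ≤ m) with hR
  set U : Finset Cl := ((Finset.univ : Finset Φ).biUnion
    (fun φ => R.biUnion (fun j => ((hfin j).toFinset).image (act φ)))) ∪ (hlow m).toFinset with hU
  have hsub : {c | c ∈ X0 ∧ len c = m} ⊆ (↑U : Set Cl) := by
    rintro c ⟨hc, hlen⟩
    rcases hstep c hc with ⟨φ, c1, hc1, hle, rfl⟩ | h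
    · simp only [hU, Finset.coe_union, Set.mem_union, Finset.mem_coe]
      left
      refine Finset.mem_biUnion.mpr ⟨φ, Finset.mem_univ _, Finset.mem_biUnion.mpr ⟨len c1, ?_, ?_⟩⟩
      · rw [hR, Finset.mem_filter, Finset.mem_range]
        constructor <;> omega
      · exact Finset.mem_image.mpr ⟨c1, by simp [hc1], rfl⟩
    · simp only [hU, Finset.coe_union, Set.mem_union, Finset.mem_coe]
      right
      simp [h, hlen]
  have h1 : {c | c ∈ X0 ∧ len c = m}.ncard ≤ U.card := by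
    have := Set.ncard_le_ncard hsub (Finset.finite_toSet U)
    simpa using this
  have h2 : U.card ≤ Fintype.card Φ * ∑ j ∈ R, {c | c ∈ X ∧ len c = j}.ncard
      + {c | c ∈ Low ∧ len c = m}.ncard := by
    refine (Finset.card_union_le _ _).trans (Nat.add_le_add ?_ ?_)
    · refine Finset.card_biUnion_le.trans ?_
      rw [← Finset.card_univ, ← smul_eq_mul, ← Finset.sum_const]
      refine Finset.sum_le_sum (fun φ _ => Finset.card_biUnion_le.trans
        (Finset.sum_le_sum (fun j _ => Finset.card_image_le.trans ?_)))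
      rw [Set.ncard_eq_toFinset_card _ (hfin j)]
    · rw [Set.ncard_eq_toFinset_card _ (hlow m)]
  have h3 := h1.trans h2
  exact_mod_cast h3

theorem pw_count3b_geom (x : ℝ) (hx : 1 < x) (D m : ℕ) :
    ∑ j ∈ (Finset.range (m + 1)).filter (fun j => j + D ≤ m), x ^ j ≤
      x ^ m * ((x / (x - 1)) / x ^ D) := by
  have hx0 : 0 < x := by linarith
  have hx1 : 0 < x - 1 := by linarith
  have hsub : (Finset.range (m + 1)).filter (fun j => j + D ≤ m) ⊆ Finset.range (m + 1 - D) := by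
    intro j hj
    rw [Finset.mem_filter, Finset.mem_range] at hj
    rw [Finset.mem_range]
    omega
  have h1 : ∑ j ∈ (Finset.range (m + 1)).filter (fun j => j + D ≤ m), x ^ j ≤
      ∑ j ∈ Finset.range (m + 1 - D), x ^ j :=
    Finset.sum_le_sum_of_subset_of_nonneg hsub (fun i _ _ => by positivity)
  refine h1.trans ?_
  by_cases hD : D ≤ m + 1
  · rw [geom_sum_eq hx.ne']
    have h2 : x ^ (m + 1 - D) * x ^ D = x ^ (m + 1) := by
      rw [← pow_add]; congr 1; omega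
    have h3 : x ^ m * ((x / (x - 1)) / x ^ D) = x ^ (m + 1 - D) / (x - 1) := by
      have hxD : x ^ D ≠ 0 := by positivity
      have h4 : x ^ m * ((x / (x - 1)) / x ^ D) = x ^ (m + 1) / ((x - 1) * x ^ D) := by
        rw [pow_succ]
        field_simp
      rw [h4, ← h2]
      field_simp
    rw [h3]
    exact div_le_div_of_nonneg_right (by linarith) hx1.le
  · have h2 : m + 1 - D = 0 := by omega
    rw [h2, Finset.range_zero, Finset.sum_empty]
    positivity

/-- TARGET (pure real analysis: from the two recursive inequalities to an exponential bound) -/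
theorem pw_count3b (N A : ℕ → ℝ) (hN0 : ∀ n, 0 ≤ N n) (hA0 : ∀ n, 0 ≤ A n)
    (S : ℕ → ℝ) (hS0 : ∀ Δ, 0 ≤ S Δ) (C G : ℝ) (hC : 0 ≤ C) (hG : 0 ≤ G) (D : ℕ) (hD : 1 ≤ D)
    (x : ℝ) (hx : 1 < x)
    (h1 : ∀ n, N n ≤ ∑ Δ ∈ Finset.range (n + 1), S Δ * A (n - Δ))
    (h2 : ∀ m, A m ≤ C * ∑ j ∈ (Finset.range (m + 1)).filter (fun j => j + D ≤ m), N j + G * x ^ m)
    (hsum : Summable fun Δ => S Δ / x ^ Δ)
    (hsmall : C * (∑' Δ, S Δ / x ^ Δ) * (x / (x - 1)) / x ^ D ≤ 1 / 2) :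
    ∃ K : ℝ, 0 ≤ K ∧ ∀ n, N n ≤ K * x ^ n := by
  have hx0 : 0 < x := by linarith
  have hx1 : 0 < x - 1 := by linarith
  set Z : ℝ := ∑' Δ, S Δ / x ^ Δ with hZ
  have hZ0 : 0 ≤ Z := tsum_nonneg fun Δ => div_nonneg (hS0 Δ) (by positivity)
  set q : ℝ := (x / (x - 1)) / x ^ D with hq
  have hq0 : 0 ≤ q := by positivity
  have hsm : C * Z * q ≤ 1 / 2 := by
    have e : C * Z * q = C * Z * (x / (x - 1)) / x ^ D := by rw [hq]; ring
    rw [e]; exact hsmall
  set K : ℝ := 2 * G * Z with hK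
  have hK0 : 0 ≤ K := by positivity
  refine ⟨K, hK0, ?_⟩
  intro n
  induction n using Nat.strong_induction_on with
  | _ n ih =>
    have hA : ∀ m ≤ n, A m ≤ (C * K * q + G) * x ^ m := by
      intro m hm
      have a1 : ∑ j ∈ (Finset.range (m + 1)).filter (fun j => j + D ≤ m), N j ≤
          ∑ j ∈ (Finset.range (m + 1)).filter (fun j => j + D ≤ m), K * x ^ j := by
        refine Finset.sum_le_sum ?_
        intro j hj
        rw [Finset.mem_filter, Finset.mem_range] at hj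
        exact ih j (by omega)
      rw [← Finset.mul_sum] at a1
      have a2 := a1.trans (mul_le_mul_of_nonneg_left (pw_count3b_geom x hx D m) hK0)
      have a3 := mul_le_mul_of_nonneg_left a2 hC
      have a4 := h2 m
      calc A m ≤ C * ∑ j ∈ (Finset.range (m + 1)).filter (fun j => j + D ≤ m), N j + G * x ^ m := a4
        _ ≤ C * (K * (x ^ m * ((x / (x - 1)) / x ^ D))) + G * x ^ m := by linarith
        _ = (C * K * q + G) * x ^ m := by rw [hq]; ring
    have hB0 : 0 ≤ C * K * q + G := by positivity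
    have b1 : ∑ Δ ∈ Finset.range (n + 1), S Δ * A (n - Δ) ≤
        ∑ Δ ∈ Finset.range (n + 1), (C * K * q + G) * x ^ n * (S Δ / x ^ Δ) := by
      refine Finset.sum_le_sum ?_
      intro Δ hΔ
      rw [Finset.mem_range] at hΔ
      have c1 := mul_le_mul_of_nonneg_left (hA (n - Δ) (Nat.sub_le n Δ)) (hS0 Δ)
      refine c1.trans (le_of_eq ?_)
      have c2 : x ^ (n - Δ) * x ^ Δ = x ^ n := by
        rw [← pow_add]; congr 1; omega
      have hxD : x ^ Δ ≠ 0 := by positivity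
      rw [← c2]
      field_simp
    rw [← Finset.mul_sum] at b1
    have b2 : ∑ Δ ∈ Finset.range (n + 1), S Δ / x ^ Δ ≤ Z :=
      hsum.sum_le_tsum _ (fun Δ _ => div_nonneg (hS0 Δ) (by positivity))
    have b3 : (C * K * q + G) * x ^ n * ∑ Δ ∈ Finset.range (n + 1), S Δ / x ^ Δ ≤
        (C * K * q + G) * x ^ n * Z := mul_le_mul_of_nonneg_left b2 (by positivity)
    have b4 : (C * K * q + G) * Z ≤ K := by
      have d1 : (C * K * q + G) * Z = K * (C * Z * q) + G * Z := by ring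
      have d2 : K * (C * Z * q) ≤ K * (1 / 2) := mul_le_mul_of_nonneg_left hsm hK0
      have d3 : K * (1 / 2) = G * Z := by rw [hK]; ring
      have d4 : K = G * Z + G * Z := by rw [hK]; ring
      linarith
    have b5 : (C * K * q + G) * x ^ n * Z ≤ K * x ^ n := by
      have e1 : (C * K * q + G) * x ^ n * Z = ((C * K * q + G) * Z) * x ^ n := by ring
      rw [e1]
      exact mul_le_mul_of_nonneg_right b4 (by positivity)
    linarith [h1 n]

/-- TARGET (choice of the threshold `D`): `S D Δ = c * ((Δ+2) * (a*D+b))^E * (√q)^Δ`. -/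
theorem pw_choice (q x : ℝ) (hq : 1 ≤ q) (hx : Real.sqrt q < x) (C c a b : ℝ) (hC : 0 ≤ C)
    (hc : 0 ≤ c) (ha : 0 ≤ a) (hb : 0 ≤ b) (E D0 : ℕ) :
    ∃ D : ℕ, D0 ≤ D ∧ 1 ≤ D ∧
      (Summable fun Δ : ℕ => (c * (((Δ : ℝ) + 2) * (a * D + b)) ^ E * Real.sqrt q ^ Δ) / x ^ Δ) ∧
      C * (∑' Δ : ℕ, (c * (((Δ : ℝ) + 2) * (a * D + b)) ^ E * Real.sqrt q ^ Δ) / x ^ Δ) *
        (x / (x - 1)) / x ^ D ≤ 1 / 2 := by
  classical
  have hsq1 : 1 ≤ Real.sqrt q := by
    rw [show (1:ℝ) = Real.sqrt 1 by simp]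
    exact Real.sqrt_le_sqrt hq
  have hx1 : 1 < x := lt_of_le_of_lt hsq1 hx
  have hx0 : 0 < x := by linarith
  set ρ : ℝ := Real.sqrt q / x with hρ
  have hρ0 : 0 < ρ := by rw [hρ]; positivity
  have hρ1 : ρ < 1 := by rw [hρ, div_lt_one hx0]; exact hx
  have hn : ‖ρ‖ < 1 := by rw [Real.norm_eq_abs, abs_of_pos hρ0]; exact hρ1
  have hs1 : Summable fun n : ℕ => (n : ℝ) ^ E * ρ ^ n :=
    summable_pow_mul_geometric_of_norm_lt_one E hn
  have hs2 : Summable fun n : ℕ => ((n + 2 : ℕ) : ℝ) ^ E * ρ ^ (n + 2) :=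
    (summable_nat_add_iff 2).2 hs1
  have hs3 : Summable fun n : ℕ => ((n : ℝ) + 2) ^ E * ρ ^ n := by
    have h := hs2.mul_left ((ρ ^ 2)⁻¹)
    refine h.congr ?_
    intro n
    push_cast
    rw [pow_add]
    field_simp
  have hterm : ∀ D : ℕ, ∀ Δ : ℕ, (c * (((Δ : ℝ) + 2) * (a * D + b)) ^ E * Real.sqrt q ^ Δ) / x ^ Δ
      = (c * (a * D + b) ^ E) * (((Δ : ℝ) + 2) ^ E * ρ ^ Δ) := by
    intro D Δ
    rw [hρ, div_pow, mul_pow]
    ring
  set T : ℝ := ∑' n : ℕ, ((n : ℝ) + 2) ^ E * ρ ^ n with hT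
  have hT0 : 0 ≤ T := tsum_nonneg (fun n => by positivity)
  have hlim := tendsto_pow_const_div_const_pow_of_one_lt E hx1
  set K : ℝ := C * c * (a + b) ^ E * T * (x / (x - 1)) with hK
  have hxx : 0 ≤ x / (x - 1) := div_nonneg hx0.le (by linarith)
  have hK0 : 0 ≤ K := by rw [hK]; positivity
  have hlim2 : Filter.Tendsto (fun n : ℕ => K * ((n : ℝ) ^ E / x ^ n)) Filter.atTop (nhds 0) := by
    have := hlim.const_mul K
    simpa using this
  have hev : ∀ᶠ n : ℕ in Filter.atTop, K * ((n : ℝ) ^ E / x ^ n) < 1 / 2 :=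
    hlim2.eventually (gt_mem_nhds (by norm_num))
  obtain ⟨D, hD⟩ := (hev.and (Filter.eventually_ge_atTop (max D0 1))).exists
  have hD0 : D0 ≤ D := le_trans (le_max_left _ _) hD.2
  have hD1 : 1 ≤ D := le_trans (le_max_right _ _) hD.2
  refine ⟨D, hD0, hD1, ?_, ?_⟩
  · refine (hs3.mul_left (c * (a * D + b) ^ E)).congr ?_
    intro Δ
    exact (hterm D Δ).symm
  · have htsum : (∑' Δ : ℕ, (c * (((Δ : ℝ) + 2) * (a * D + b)) ^ E * Real.sqrt q ^ Δ) / x ^ Δ)
        = (c * (a * D + b) ^ E) * T := by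
      rw [hT, ← tsum_mul_left]
      exact tsum_congr (hterm D)
    rw [htsum]
    have hDR : (1 : ℝ) ≤ (D : ℝ) := by exact_mod_cast hD1
    have hab : a * D + b ≤ (a + b) * D := by nlinarith
    have hab0 : 0 ≤ a * D + b := by positivity
    have hpow : (a * D + b) ^ E ≤ (a + b) ^ E * (D : ℝ) ^ E := by
      rw [← mul_pow]
      exact pow_le_pow_left₀ hab0 hab E
    have h1 : C * (c * (a * D + b) ^ E * T) * (x / (x - 1)) / x ^ D
        ≤ K * ((D : ℝ) ^ E / x ^ D) := by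
      have hxD : 0 < x ^ D := by positivity
      rw [show K * ((D : ℝ) ^ E / x ^ D) = (K * (D : ℝ) ^ E) / x ^ D by ring, hK]
      apply div_le_div_of_nonneg_right _ hxD.le
      have h2 : C * (c * (a * D + b) ^ E * T) * (x / (x - 1))
          = (C * c * T * (x / (x - 1))) * (a * D + b) ^ E := by ring
      have h3 : C * c * (a + b) ^ E * T * (x / (x - 1)) * (D : ℝ) ^ E
          = (C * c * T * (x / (x - 1))) * ((a + b) ^ E * (D : ℝ) ^ E) := by ring
      rw [h2, h3]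
      exact mul_le_mul_of_nonneg_left hpow (by positivity)
    exact le_trans h1 hD.1.le

/-- TARGET (summability and choice of `D`): `S Δ ≤ c * (a*Δ+b)^E * q^(Δ/2)` (natural division). -/
theorem pw_choiceb (q : ℕ) (x : ℝ) (hx : Real.sqrt q < x) (hx1 : 1 < x) (S : ℕ → ℝ)
    (hS0 : ∀ Δ, 0 ≤ S Δ) (c a b : ℝ) (hc : 0 ≤ c) (ha : 0 ≤ a) (hb : 0 ≤ b) (E : ℕ)
    (hS : ∀ Δ : ℕ, S Δ ≤ c * (a * Δ + b) ^ E * (q : ℝ) ^ (Δ / 2)) (C : ℝ) :
    (Summable fun Δ : ℕ => S Δ / x ^ Δ) ∧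
      ∃ D : ℕ, 1 ≤ D ∧ C * (∑' Δ : ℕ, S Δ / x ^ Δ) * (x / (x - 1)) / x ^ D ≤ 1 / 2 := by
  have hx0 : 0 < x := by linarith
  set r : ℝ := max 1 (Real.sqrt q) with hr
  have hr1 : 1 ≤ r := le_max_left _ _
  have hrx : r < x := max_lt hx1 hx
  set ρ : ℝ := r / x with hρ
  have hρ0 : 0 < ρ := by positivity
  have hρ1 : ρ < 1 := by rw [hρ, div_lt_one hx0]; exact hrx
  have hq : ∀ Δ : ℕ, (q : ℝ) ^ (Δ / 2) ≤ r ^ Δ := by
    intro Δ
    calc (q : ℝ) ^ (Δ / 2) = (Real.sqrt q ^ 2) ^ (Δ / 2) := by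
          rw [Real.sq_sqrt (Nat.cast_nonneg q)]
      _ = Real.sqrt q ^ (2 * (Δ / 2)) := by rw [pow_mul]
      _ ≤ r ^ (2 * (Δ / 2)) := pow_le_pow_left₀ (Real.sqrt_nonneg _) (le_max_right _ _) _
      _ ≤ r ^ Δ := pow_le_pow_right₀ hr1 (by omega)
  have hbound : ∀ Δ : ℕ, S Δ / x ^ Δ ≤ (c * (a + b) ^ E * ρ⁻¹) *
      (((Δ + 1 : ℕ) : ℝ) ^ E * ρ ^ (Δ + 1)) := by
    intro Δ
    have h1 : a * Δ + b ≤ (a + b) * (Δ + 1) := by
      have : 0 ≤ (Δ : ℝ) := Nat.cast_nonneg _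
      nlinarith [mul_nonneg hb this]
    have h2 : (a * Δ + b) ^ E ≤ (a + b) ^ E * ((Δ + 1 : ℕ) : ℝ) ^ E := by
      rw [← mul_pow]
      push_cast
      exact pow_le_pow_left₀ (by positivity) h1 E
    have h3 : S Δ ≤ c * ((a + b) ^ E * ((Δ + 1 : ℕ) : ℝ) ^ E) * r ^ Δ := by
      refine (hS Δ).trans ?_
      exact mul_le_mul (mul_le_mul_of_nonneg_left h2 hc) (hq Δ) (by positivity) (by positivity)
    rw [div_le_iff₀ (by positivity)]
    refine h3.trans (le_of_eq ?_)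
    have h4 : r ^ Δ = ρ⁻¹ * ρ ^ (Δ + 1) * x ^ Δ := by
      rw [pow_succ, hρ, div_pow]
      field_simp
    rw [h4]
    ring
  have hsum : Summable fun Δ : ℕ => S Δ / x ^ Δ := by
    refine Summable.of_nonneg_of_le (fun Δ => div_nonneg (hS0 Δ) (by positivity)) hbound ?_
    apply Summable.mul_left
    have h := summable_pow_mul_geometric_of_norm_lt_one (R := ℝ) E (r := ρ)
      (by rw [Real.norm_of_nonneg hρ0.le]; exact hρ1)
    exact (summable_nat_add_iff 1).2 h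
  refine ⟨hsum, ?_⟩
  set K : ℝ := C * (∑' Δ : ℕ, S Δ / x ^ Δ) * (x / (x - 1)) with hK
  obtain ⟨n, hn⟩ := pow_unbounded_of_one_lt (2 * |K|) hx1
  refine ⟨n + 1, by omega, ?_⟩
  rw [div_le_iff₀ (by positivity)]
  have h1 : x ^ n ≤ x ^ (n + 1) := pow_le_pow_right₀ hx1.le (Nat.le_succ n)
  have h2 := le_abs_self K
  linarith

theorem pw_cyc {α : Type*} [DecidableEq α] (L : List (α × Bool))
    (h : ∀ t ∈ List.zip (L.map (fun x => (x.1, !x.2))) (L.rotate 1), t.1 ≠ t.2) :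
    FreeGroup.IsCyclicallyReduced L := by
  have key : ∀ (i : ℕ) (hi : i < L.length),
      ((L[i].1, !L[i].2) : α × Bool) ≠ L[(i + 1) % L.length]'(Nat.mod_lt _ (by omega)) := by
    intro i hi
    have hlen : i < (List.zip (L.map (fun x => (x.1, !x.2))) (L.rotate 1)).length := by
      simp [hi]
    have h1 := h _ (List.getElem_mem hlen)
    simpa [List.getElem_rotate] using h1
  have imp : ∀ a b : α × Bool, ((a.1, !a.2) : α × Bool) ≠ b → (a.1 = b.1 → a.2 = b.2) := by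
    rintro ⟨a1, a2⟩ ⟨b1, b2⟩ hab h1
    simp only at h1 hab ⊢
    subst h1
    simp only [ne_eq, Prod.mk.injEq, true_and] at hab
    revert hab
    cases a2 <;> cases b2 <;> simp
  refine ⟨?_, ?_⟩
  · unfold FreeGroup.IsReduced
    rw [List.isChain_iff_getElem]
    intro i hi
    have h1 := key i (by omega)
    have h2 : (i + 1) % L.length = i + 1 := Nat.mod_eq_of_lt hi
    simp only [h2] at h1
    exact imp _ _ h1
  · intro a ha b hb
    have hne : L ≠ [] := by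
      rintro rfl
      simp at ha
    have hpos : 0 < L.length := List.length_pos_of_ne_nil hne
    have h1 := key (L.length - 1) (by omega)
    have h2 : (L.length - 1 + 1) % L.length = 0 := by
      rw [Nat.sub_add_cancel hpos, Nat.mod_self]
    simp only [h2] at h1
    have ea : a = L[L.length - 1] := by
      rw [List.getLast?_eq_getElem?] at ha
      rw [List.getElem?_eq_getElem (by omega)] at ha
      simpa using ha.symm
    have eb : b = L[0] := by
      rw [List.head?_eq_getElem?] at hb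
      rw [List.getElem?_eq_getElem (by omega)] at hb
      simpa using hb.symm
    rw [ea, eb]
    exact imp _ _ h1

theorem pw_mk_pow {α : Type*} (L : List (α × Bool)) (k : ℕ) :
    FreeGroup.mk L ^ k = FreeGroup.mk (List.replicate k L).flatten := by
  induction k with
  | zero => simp [FreeGroup.one_eq_mk]
  | succ k ih =>
    rw [pow_succ', ih, List.replicate_succ, List.flatten_cons, FreeGroup.mul_mk]

theorem pw_norm_pow {α : Type*} [DecidableEq α] (L : List (α × Bool))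
    (h : FreeGroup.IsCyclicallyReduced L) (k : ℕ) :
    FreeGroup.norm (FreeGroup.mk L ^ k) = k * L.length := by
  rw [pw_mk_pow]
  have h1 := (h.flatten_replicate k).isReduced
  unfold FreeGroup.norm
  rw [FreeGroup.toWord_mk, h1.reduce_eq]
  simp

theorem pw_le {α : Type*} [DecidableEq α] (L L' : List (α × Bool))
    (h : FreeGroup.IsCyclicallyReduced L) (h' : FreeGroup.IsCyclicallyReduced L')
    (hc : IsConj (FreeGroup.mk L) (FreeGroup.mk L')) : L'.length ≤ L.length := by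
  obtain ⟨c, hc⟩ := isConj_iff.1 hc
  set n := FreeGroup.norm c with hn
  have key : ∀ k : ℕ, k * L'.length ≤ k * L.length + 2 * n := by
    intro k
    rw [← pw_norm_pow L' h' k, ← pw_norm_pow L h k, ← hc, conj_pow]
    have h1 := FreeGroup.norm_mul_le (c * FreeGroup.mk L ^ k) c⁻¹
    have h2 := FreeGroup.norm_mul_le c (FreeGroup.mk L ^ k)
    rw [FreeGroup.norm_inv_eq] at h1
    omega
  by_contra hcon
  push Not at hcon
  have h1 := key (2 * n + 1)
  have h2 : (2 * n + 1) * (L.length + 1) ≤ (2 * n + 1) * L'.length :=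
    Nat.mul_le_mul_left _ hcon
  rw [Nat.mul_add, Nat.mul_one] at h2
  omega

/-- TARGET: conjugate cyclically reduced words have the same length (powers: the norm of the `k`-th
power of a cyclically reduced word of length `n` is `k n`, and `≤ k n' + 2 |g|` for a conjugate). -/
theorem pw_tight_len {α : Type*} [DecidableEq α] (L L' : List (α × Bool))
    (h : ∀ t ∈ List.zip (L.map (fun x => (x.1, !x.2))) (L.rotate 1), t.1 ≠ t.2)
    (h' : ∀ t ∈ List.zip (L'.map (fun x => (x.1, !x.2))) (L'.rotate 1), t.1 ≠ t.2)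
    (hc : IsConj (FreeGroup.mk L) (FreeGroup.mk L')) : L.length = L'.length :=
  le_antisymm (pw_le L' L (pw_cyc L' h') (pw_cyc L h) hc.symm)
    (pw_le L L' (pw_cyc L h) (pw_cyc L' h') hc)

end PW
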