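import Pool.Agent.Helper419.PW.Cnt

set_option autoImplicit false

/-! MP_dab459_al, module M5b, part 2: sets with exponentially bounded slices. -/

namespace PW

/-- the slices `{c ∈ X | len c = m}` are finite, of size `≤ G x^m` -/
def Exp {Cl : Type*} (len : Cl → ℕ) (x : ℝ) (X : Set Cl) : Prop :=
  ∃ G : ℝ, 0 ≤ G ∧ ∀ m, {c | c ∈ X ∧ len c = m}.Finite ∧
    ({c | c ∈ X ∧ len c = m}.ncard : ℝ) ≤ G * x ^ m

theorem Exp.mono {Cl : Type*} {len : Cl → ℕ} {x : ℝ} {X Y : Set Cl}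
    (h : Exp len x Y) (hXY : X ⊆ Y) : Exp len x X := by
  obtain ⟨G, hG, h⟩ := h
  refine ⟨G, hG, fun m => ?_⟩
  have hsub : {c | c ∈ X ∧ len c = m} ⊆ {c | c ∈ Y ∧ len c = m} := fun c hc => ⟨hXY hc.1, hc.2⟩
  refine ⟨(h m).1.subset hsub, le_trans ?_ (h m).2⟩
  exact_mod_cast Set.ncard_le_ncard hsub (h m).1

theorem Exp.empty {Cl : Type*} (len : Cl → ℕ) (x : ℝ) : Exp len x (∅ : Set Cl) := by
  refine ⟨0, le_refl _, fun m => ?_⟩
  have : {c | c ∈ (∅ : Set Cl) ∧ len c = m} = ∅ := by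
    ext c; simp
  rw [this]
  simp

theorem Exp.union {Cl : Type*} {len : Cl → ℕ} {x : ℝ} {X Y : Set Cl}
    (hX : Exp len x X) (hY : Exp len x Y) : Exp len x (X ∪ Y) := by
  obtain ⟨G, hG, hX⟩ := hX
  obtain ⟨G', hG', hY⟩ := hY
  refine ⟨G + G', by linarith, fun m => ?_⟩
  have he : {c | c ∈ X ∪ Y ∧ len c = m} = {c | c ∈ X ∧ len c = m} ∪ {c | c ∈ Y ∧ len c = m} := by
    ext c
    simp only [Set.mem_union, Set.mem_ofPred_eq]
    tauto
  rw [he]
  refine ⟨(hX m).1.union (hY m).1, ?_⟩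
  have h1 := Set.ncard_union_le {c | c ∈ X ∧ len c = m} {c | c ∈ Y ∧ len c = m}
  have h2 : (({c | c ∈ X ∧ len c = m} ∪ {c | c ∈ Y ∧ len c = m}).ncard : ℝ) ≤
      ({c | c ∈ X ∧ len c = m}.ncard : ℝ) + ({c | c ∈ Y ∧ len c = m}.ncard : ℝ) := by
    exact_mod_cast h1
  have h3 := (hX m).2
  have h4 := (hY m).2
  linarith

theorem Exp.iUnion_finset {Cl ι : Type*} {len : Cl → ℕ} {x : ℝ} (s : Finset ι) (X : ι → Set Cl)
    (h : ∀ i, Exp len x (X i)) : Exp len x (⋃ i ∈ s, X i) := by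
  classical
  induction s using Finset.induction_on with
  | empty => simpa using Exp.empty len x
  | insert a s ha ih =>
    rw [Finset.set_biUnion_insert]
    exact (h a).union ih

theorem Exp.iUnion {Cl ι : Type*} [Finite ι] {len : Cl → ℕ} {x : ℝ} (X : ι → Set Cl)
    (h : ∀ i, Exp len x (X i)) : Exp len x (⋃ i, X i) := by
  cases nonempty_fintype ι
  have := Exp.iUnion_finset Finset.univ X h
  simpa using this

theorem Exp.of_finite {Cl : Type*} {len : Cl → ℕ} {x : ℝ} (hx : 1 ≤ x) {X : Set Cl}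
    (h : X.Finite) : Exp len x X := by
  refine ⟨X.ncard, by positivity, fun m => ?_⟩
  have hsub : {c | c ∈ X ∧ len c = m} ⊆ X := fun c hc => hc.1
  refine ⟨h.subset hsub, ?_⟩
  have h1 : ({c | c ∈ X ∧ len c = m}.ncard : ℝ) ≤ (X.ncard : ℝ) := by
    exact_mod_cast Set.ncard_le_ncard hsub h
  have h2 : (1 : ℝ) ≤ x ^ m := one_le_pow₀ hx
  have h3 : (0 : ℝ) ≤ (X.ncard : ℝ) := by positivity
  nlinarith

/-- images with bounded decrease of the length -/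
theorem Exp.image {Cl Cl' Cl'' : Type*} {len : Cl → ℕ} {len' : Cl' → ℕ} {x : ℝ} (hx : 1 < x)
    {X : Set Cl'} (h : Exp len' x X) (f : Cl' → Cl'') (g : Cl → Cl'') (hg : Function.Injective g)
    (K : ℕ) : Exp len x {c | ∃ c1 ∈ X, len' c1 ≤ len c + K ∧ f c1 = g c} := by
  classical
  obtain ⟨G, hG, h⟩ := h
  have hx0 : (0 : ℝ) < x := by linarith
  have hx1 : (0 : ℝ) < x - 1 := by linarith
  refine ⟨G * (x ^ (K + 1) / (x - 1)), by positivity, fun m => ?_⟩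
  set U : Finset Cl'' := (Finset.range (m + K + 1)).biUnion
    (fun j => ((h j).1.toFinset).image f) with hU
  have hsub : {c | c ∈ {c | ∃ c1 ∈ X, len' c1 ≤ len c + K ∧ f c1 = g c} ∧ len c = m} ⊆
      g ⁻¹' (↑U : Set Cl'') := by
    rintro c ⟨⟨c1, hc1, hle, hfg⟩, hm⟩
    simp only [hU, Set.mem_preimage, Finset.mem_coe]
    refine Finset.mem_biUnion.mpr ⟨len' c1, ?_, ?_⟩
    · rw [Finset.mem_range]; omega
    · exact Finset.mem_image.mpr ⟨c1, by simp [hc1], hfg⟩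
  have hfinU : (g ⁻¹' (↑U : Set Cl'')).Finite := (Finset.finite_toSet U).preimage hg.injOn
  refine ⟨hfinU.subset hsub, ?_⟩
  have h1 : {c | c ∈ {c | ∃ c1 ∈ X, len' c1 ≤ len c + K ∧ f c1 = g c} ∧ len c = m}.ncard ≤
      U.card := by
    refine (Set.ncard_le_ncard hsub hfinU).trans ?_
    rw [← Set.ncard_image_of_injective _ hg, ← Set.ncard_coe_finset]
    exact Set.ncard_le_ncard (Set.image_preimage_subset _ _) (Finset.finite_toSet U)
  have h2 : U.card ≤ ∑ j ∈ Finset.range (m + K + 1), {c | c ∈ X ∧ len' c = j}.ncard := by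
    refine Finset.card_biUnion_le.trans (Finset.sum_le_sum fun j _ => ?_)
    exact Finset.card_image_le.trans (le_of_eq (Set.ncard_eq_toFinset_card _ (h j).1).symm)
  have h3 : ({c | c ∈ {c | ∃ c1 ∈ X, len' c1 ≤ len c + K ∧ f c1 = g c} ∧ len c = m}.ncard : ℝ) ≤
      ∑ j ∈ Finset.range (m + K + 1), ({c | c ∈ X ∧ len' c = j}.ncard : ℝ) := by
    exact_mod_cast h1.trans h2
  refine h3.trans ((Finset.sum_le_sum fun j _ => (h j).2).trans ?_)
  rw [← Finset.mul_sum, geom_sum_eq hx.ne']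
  have h4 : G * (x ^ (K + 1) / (x - 1)) * x ^ m = G * (x ^ (m + K + 1) / (x - 1)) := by
    have : x ^ (m + K + 1) = x ^ (K + 1) * x ^ m := by
      rw [← pow_add]; congr 1; omega
    rw [this]; ring
  rw [h4]
  refine mul_le_mul_of_nonneg_left ?_ hG
  exact div_le_div_of_nonneg_right (by linarith) hx1.le

/-- the abstract level theorem: descent `X → X0` with `S Δ` choices, fast moves `X0 → X` with
decrease `≥ D`, everything else is in the exponentially bounded set `Low`. -/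
theorem Exp.level {Cl Φ : Type*} [Fintype Φ] (len : Cl → ℕ) (act : Φ → Cl → Cl)
    (X X0 Low : Set Cl) (hX0 : X0 ⊆ X) (hfin : ∀ n, {c | c ∈ X ∧ len c = n}.Finite)
    (x : ℝ) (hx : 1 < x) (hlow : Exp len x Low) (D : ℕ) (hD : 1 ≤ D)
    (hstep : ∀ c0 ∈ X0, (∃ φ, ∃ c1 ∈ X, len c1 + D ≤ len c0 ∧ act φ c1 = c0) ∨ c0 ∈ Low)
    (Desc : Cl → Cl → Prop) (S : ℕ → ℝ) (hS0 : ∀ Δ, 0 ≤ S Δ)
    (hdesc : ∀ c ∈ X, ∃ c0 ∈ X0, Desc c c0 ∧ len c0 ≤ len c)
    (hS : ∀ c0 ∈ X0, ∀ Δ, {c | Desc c c0 ∧ len c = len c0 + Δ}.Finite ∧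
      ({c | Desc c c0 ∧ len c = len c0 + Δ}.ncard : ℝ) ≤ S Δ)
    (hsum : Summable fun Δ => S Δ / x ^ Δ)
    (hsmall : (Fintype.card Φ : ℝ) * (∑' Δ, S Δ / x ^ Δ) * (x / (x - 1)) / x ^ D ≤ 1 / 2) :
    Exp len x X := by
  obtain ⟨G, hG, hlow⟩ := hlow
  obtain ⟨K, hK, h⟩ := pw_count3b (fun n => ({c | c ∈ X ∧ len c = n}.ncard : ℝ))
    (fun n => ({c | c ∈ X0 ∧ len c = n}.ncard : ℝ)) (fun n => by positivity)
    (fun n => by positivity) S hS0 (Fintype.card Φ : ℝ) G (by positivity) hG D hD x hx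
    (fun n => pw_count1 len X X0 hX0 hfin Desc S hS0 hdesc hS n)
    (fun m => (pw_count2b len act X X0 Low hfin (fun n => (hlow n).1) D hstep m).trans
      (by have := (hlow m).2; linarith)) hsum hsmall
  exact ⟨K, hK, fun m => ⟨hfin m, h m⟩⟩

end PW
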