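import Mathlib

set_option autoImplicit false

/-- a contiguous part of a reduced word is reduced -/
theorem FreeGroup.IsReduced.pwSub {α : Type*} {L₁ L₂ : List (α × Bool)}
    (h : FreeGroup.IsReduced L₂) (h' : L₁ <:+: L₂) : FreeGroup.IsReduced L₁ := by
  obtain ⟨s, t, rfl⟩ := h'
  unfold FreeGroup.IsReduced at *
  rw [List.isChain_append] at h
  have h1 := h.1
  rw [List.isChain_append] at h1
  exact h1.2.1
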