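import Pool.Agent.Helper419.PW.M5c
import Pool.Agent.Helper819.PW.M5a
import Pool.Agent.Helper367.PW.M1
import Pool.Agent.Helper423.PW.M4
import Pool.Agent.Helper192.PW.Last

set_option autoImplicit false

/-! MP_dab459_al: the instance of the hypotheses of module M5b and the final theorem. -/

namespace PW

/-- the predicate carried along the levels -/
def PP (k : ℕ) (N : ℕ) (u : FreeGroup (Fin N)) : Prop :=
  u ≠ 1 ∧ u.norm ≤ k ∧ ¬ ∃ i : Fin N, ∃ φ : FreeGroup (Fin N) ≃* FreeGroup (Fin N),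
    φ (FreeGroup.of i) = u

theorem hyp_PP (r k : ℕ) : Hyp r k (PP k) EN := by
  refine ⟨?_, ?_, fun N => M5a.Rel_fin N, ?_, ?_⟩
  · rintro N u ⟨h1, h2, h3⟩
    refine ⟨?_, ?_, ?_⟩
    · intro h
      apply h1
      apply embF_injective
      rw [h, map_one]
    · rw [norm_embF]; exact h2
    · intro h
      exact h3 (PW6.prim_descend (Nat.le_succ N) u h)
  · rintro N u ⟨h1, h2, h3⟩ B Lg π hne D L hS ho hns
    rcases M5a.step (D := D) u h1 h2 hS ho hns hne with h | ⟨L1, Lg1, π1, g1, g2, g3, g4, g5⟩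
    · exact Or.inl h
    · exact Or.inr ⟨L1, Lg1, π1, g1, g2, by omega, g4, g5⟩
  · rintro N u ⟨h1, h2, h3⟩ B Lg π hne L hG
    obtain ⟨L0, g1, g2, g3, g4, g5, g6⟩ := slide_descent Lg π B L hG
    exact ⟨L0, g1, g2, g3, g5, g6, fun ho => desc_orb Lg π _ L L0 u hG.loop g6 ho⟩
  · rintro N u ⟨h1, h2, h3⟩ B Lg π hne L0 hG hns ho Δ
    refine slide_count Lg π B hne u (fun L hL _ _ A => cap_ne_one ?_ hL A) L0 hG hns ho Δ
    rintro ⟨φ, i, h⟩
    exact h3 ⟨i, φ, h⟩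

theorem m5_final (r : ℕ) (hr : 2 ≤ r) (u : FreeGroup (Fin (r + 1))) (hu1 : u ≠ 1)
    (hu : ¬ ∃ i : Fin (r + 1), ∃ φ : FreeGroup (Fin (r + 1)) ≃* FreeGroup (Fin (r + 1)),
      φ (FreeGroup.of i) = u) (x : ℝ) (hx : Real.sqrt (2 * (r : ℝ) - 1) < x) :
    ∃ K : ℝ, ∀ n : ℕ, ((clsN r u n).ncard : ℝ) ≤ K * x ^ n := by
  have e : ((2 * r - 1 : ℕ) : ℝ) = 2 * (r : ℝ) - 1 := by
    have h1 : 1 ≤ 2 * r := by omega
    rw [Nat.cast_sub h1]
    push_cast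
    ring
  have hr' : (2 : ℝ) ≤ r := by exact_mod_cast hr
  have hx1 : 1 < x := by
    refine lt_trans ?_ hx
    exact Real.lt_sqrt_of_sq_lt (by linarith)
  obtain ⟨K, hK⟩ := m5b_out (hyp_PP r u.norm) x hx1 (by rw [e]; exact hx) u ⟨hu1, le_refl _, hu⟩
  exact ⟨K, fun n => (hK n).2⟩

end PW
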