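import Pool.Agent.Helper819.PW.If
import Pool.Agent.Helper423.PW.Defs
import Pool.Agent.Helper419.PW.ExpB

set_option autoImplicit false

/-! MP_dab459_al, module M5b, part 3: the level induction. -/

namespace PW

variable {N : ℕ}

/-- conjugacy classes of the free group -/
abbrev CC (N : ℕ) := ConjClasses (FreeGroup (Fin N))

/-- the conjugacy class of a list -/
def cl (L : List (Z N)) : CC N := ConjClasses.mk (FreeGroup.mk L)

/-- length of a conjugacy class -/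
noncomputable def clen (c : CC N) : ℕ :=
  sInf {n | ∃ L : List (Z N), Tight L ∧ L ≠ [] ∧ L.length = n ∧ cl L = c}

theorem m5b_len (L L' : List (Z N)) (h : Tight L) (h' : Tight L')
    (hc : IsConj (FreeGroup.mk L) (FreeGroup.mk L')) : L.length = L'.length :=
  pw_tight_len L L' h h' hc

theorem clen_cl (L : List (Z N)) (ht : Tight L) (hne : L ≠ []) : clen (cl L) = L.length := by
  have hmem : L.length ∈ {n | ∃ L' : List (Z N), Tight L' ∧ L' ≠ [] ∧ L'.length = n ∧ cl L' = cl L} :=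
    ⟨L, ht, hne, rfl, rfl⟩
  obtain ⟨L', ht', _, h1, h2⟩ := Nat.sInf_mem ⟨_, hmem⟩
  have h3 : IsConj (FreeGroup.mk L') (FreeGroup.mk L) := ConjClasses.mk_eq_mk_iff_isConj.mp h2
  have h4 := m5b_len L' L ht' ht h3
  unfold clen
  rw [← h1, h4]

/-- finitely many classes of lists of a given length -/
theorem finite_cl (n : ℕ) : {c : CC N | ∃ L : List (Z N), L.length = n ∧ cl L = c}.Finite := by
  have h : {L : List (Z N) | L.length = n}.Finite := List.finite_length_eq (Z N) n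
  refine (h.image cl).subset ?_
  rintro c ⟨L, hL, rfl⟩
  exact ⟨L, hL, rfl⟩

theorem finite_cl_le (n : ℕ) : {c : CC N | ∃ L : List (Z N), L.length ≤ n ∧ cl L = c}.Finite := by
  have h : {L : List (Z N) | L.length ≤ n}.Finite := List.finite_length_le (Z N) n
  refine (h.image cl).subset ?_
  rintro c ⟨L, hL, rfl⟩
  exact ⟨L, hL, rfl⟩

theorem Sta_slide' {r B : ℕ} {L L0 : List (Z N)} {Lg : Finset (Fin N)} {π : Z N → ℕ}
    (h : Sta r B L Lg π) (hG : Good L0 Lg π B) (hd : ∀ i, i ∉ Lg → deg L0 i = deg L i) :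
    Sta r B L0 Lg π ∧ ms2 L0 Lg = ms2 L Lg := by
  obtain ⟨e, he, hde⟩ := h.free
  refine ⟨⟨hG, h.card, ⟨e, he, by rw [hd e he]; exact hde⟩, h.bd⟩, ?_⟩
  unfold ms2
  have h1 : (Finset.univ.filter fun i => i ∉ Lg ∧ 0 < deg L0 i) =
      (Finset.univ.filter fun i => i ∉ Lg ∧ 0 < deg L i) := by
    ext i
    simp only [Finset.mem_filter, Finset.mem_univ, true_and]
    constructor
    · rintro ⟨h2, h3⟩; exact ⟨h2, by rw [← hd i h2]; exact h3⟩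
    · rintro ⟨h2, h3⟩; exact ⟨h2, by rw [hd i h2]; exact h3⟩
  rw [h1]
  refine Finset.sum_congr rfl fun i hi => ?_
  rw [hd i (Finset.mem_filter.mp hi).2.1]

theorem ms2_le' {B : ℕ} {L : List (Z N)} {Lg : Finset (Fin N)} {π : Z N → ℕ}
    (h : Good L Lg π B) : ms2 L Lg ≤ N * 3 ^ B := by
  classical
  unfold ms2
  have h1 : ∀ i ∈ Finset.univ.filter (fun i => i ∉ Lg ∧ 0 < deg L i), 3 ^ deg L i ≤ 3 ^ B := by
    intro i hi
    rw [Finset.mem_filter] at hi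
    exact Nat.pow_le_pow_right (by norm_num) (h.small i hi.2.1)
  refine (Finset.sum_le_sum h1).trans ?_
  rw [Finset.sum_const, smul_eq_mul]
  refine Nat.mul_le_mul_right _ ?_
  refine (Finset.card_filter_le _ _).trans ?_
  simp

theorem desc_congr' {Lg : Finset (Fin N)} {π : Z N → ℕ} {T : ℕ} {L L0 L0' : List (Z N)}
    (hc : IsConj (FreeGroup.mk L0) (FreeGroup.mk L0')) (hd : Desc Lg π T L L0) :
    Desc Lg π T L L0' := by
  obtain ⟨h, h1, h2, h3⟩ := hd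
  exact ⟨h, h1, h2, h3.trans (MonoidHom.map_isConj (sig h) hc)⟩

/-- classes of the lists of a level -/
def XL (r B : ℕ) (u : FreeGroup (Fin N)) (Lg : Finset (Fin N)) (π : Z N → ℕ) (Φ : ℕ) :
    Set (CC N) :=
  {c | ∃ L, Sta r B L Lg π ∧ Orb u L ∧ ms2 L Lg = Φ ∧ cl L = c}

/-- classes of the slide-minimal lists of a level -/
def XL0 (r B : ℕ) (u : FreeGroup (Fin N)) (Lg : Finset (Fin N)) (π : Z N → ℕ) (Φ : ℕ) :
    Set (CC N) :=
  {c | ∃ L, Sta r B L Lg π ∧ Orb u L ∧ ms2 L Lg = Φ ∧ NoSlide L Lg π ∧ cl L = c}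

/-- the classes reached from lower levels in `F_{N+1}` -/
def Low (r B' K : ℕ) (u : FreeGroup (Fin N)) (Θ : Set (FreeGroup (Fin (N + 1)) ≃* FreeGroup (Fin (N + 1))))
    (s Φ : ℕ) : Set (CC N) :=
  {c | ∃ (φ : FreeGroup (Fin (N + 1)) ≃* FreeGroup (Fin (N + 1))) (Lg1 : Finset (Fin (N + 1)))
    (π1 : Z (N + 1) → ℕ) (Φ1 : ℕ), φ ∈ Θ ∧ (∀ x, π1 x < 2 * (N + 1)) ∧ Φ1 ≤ (N + 1) * 3 ^ B' ∧
    (ms1 Lg1 π1 < s ∨ (ms1 Lg1 π1 = s ∧ Φ1 < Φ)) ∧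
    ∃ c1 ∈ XL r B' (embF u) Lg1 π1 Φ1, clen c1 ≤ clen c + K ∧
      ConjClasses.map φ.toMonoidHom c1 = ConjClasses.map (embF : FreeGroup (Fin N) →* _) c}

theorem Low_exp (r B' K : ℕ) (u : FreeGroup (Fin N))
    (Θ : Set (FreeGroup (Fin (N + 1)) ≃* FreeGroup (Fin (N + 1)))) (hΘ : Θ.Finite) (s Φ : ℕ) (x : ℝ)
    (hx : 1 < x)
    (ih : ∀ (Lg1 : Finset (Fin (N + 1))) (π1 : Z (N + 1) → ℕ) (Φ1 : ℕ),
      (ms1 Lg1 π1 < s ∨ (ms1 Lg1 π1 = s ∧ Φ1 < Φ)) → Exp clen x (XL r B' (embF u) Lg1 π1 Φ1)) :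
    Exp clen x (Low r B' K u Θ s Φ) := by
  classical
  haveI : Finite Θ := hΘ
  let Y : (Θ × Finset (Fin (N + 1)) × (Z (N + 1) → Fin (2 * (N + 1))) × Fin ((N + 1) * 3 ^ B' + 1)) →
      Set (CC N) := fun i =>
    if ms1 i.2.1 (fun x => (i.2.2.1 x).val) < s ∨
      (ms1 i.2.1 (fun x => (i.2.2.1 x).val) = s ∧ i.2.2.2.val < Φ) then
      {c | ∃ c1 ∈ XL r B' (embF u) i.2.1 (fun x => (i.2.2.1 x).val) i.2.2.2.val,
        clen c1 ≤ clen c + K ∧ ConjClasses.map i.1.1.toMonoidHom c1 =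
          ConjClasses.map (embF : FreeGroup (Fin N) →* _) c}
    else ∅
  have hY : Exp clen x (⋃ i, Y i) := by
    refine Exp.iUnion Y fun i => ?_
    by_cases hi : ms1 i.2.1 (fun x => (i.2.2.1 x).val) < s ∨
      (ms1 i.2.1 (fun x => (i.2.2.1 x).val) = s ∧ i.2.2.2.val < Φ)
    · simp only [Y, if_pos hi]
      exact Exp.image hx (ih _ _ _ hi) _ _ embC_injective K
    · simp only [Y, if_neg hi]
      exact Exp.empty _ _
  refine hY.mono ?_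
  rintro c ⟨φ, Lg1, π1, Φ1, hφ, hb, hΦ1, hl, c1, hc1, hle, hm⟩
  refine Set.mem_iUnion.mpr ⟨(⟨φ, hφ⟩, Lg1, fun x => ⟨π1 x, hb x⟩, ⟨Φ1, by omega⟩), ?_⟩
  simp only [Y]
  rw [if_pos hl]
  exact ⟨c1, hc1, hle, hm⟩

/-- one level -/
theorem level_one (r k : ℕ) (x : ℝ) (hx1 : 1 < x) (hx : Real.sqrt ((2 * r - 1 : ℕ) : ℝ) < x)
    (u : FreeGroup (Fin N)) (B : ℕ) (Lg : Finset (Fin N)) (π : Z N → ℕ) (Φ : ℕ) (E : ℕ)
    (hne : Lg.Nonempty) (hcard : Lg.card ≤ r)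
    (hstep : ∀ (D : ℕ) (L : List (Z N)), Sta r B L Lg π → Orb u L → NoSlide L Lg π →
      (∃ L1 : List (Z N), Sta r B L1 Lg π ∧ Orb u L1 ∧ L1.length + D ≤ L.length ∧
        ms2 L1 Lg = ms2 L Lg ∧ Rel L1 L) ∨
      (∃ (L1 : List (Z (N + 1))) (Lg1 : Finset (Fin (N + 1))) (π1 : Z (N + 1) → ℕ),
        Sta r (B + 2 * D + 2 * k) L1 Lg1 π1 ∧ Orb (embF u) L1 ∧
        L1.length ≤ L.length + (B + 2 * D + 4 * k) ∧
        (ms1 Lg1 π1 < ms1 Lg π ∨ (ms1 Lg1 π1 = ms1 Lg π ∧ ms2 L1 Lg1 < ms2 L Lg)) ∧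
        Rel L1 (embL L)))
    (Θ : Set (FreeGroup (Fin N) ≃* FreeGroup (Fin N))) (hΘ : Θ.Finite)
    (hrel : ∀ L1 L : List (Z N), Rel L1 L → ∃ φ ∈ Θ, IsConj (FreeGroup.mk L) (φ (FreeGroup.mk L1)))
    (Θ' : Set (FreeGroup (Fin (N + 1)) ≃* FreeGroup (Fin (N + 1))))
    (hrel' : ∀ L1 L : List (Z (N + 1)), Rel L1 L →
      ∃ φ ∈ Θ', IsConj (FreeGroup.mk L) (φ (FreeGroup.mk L1)))
    (hlow : ∀ D, Exp clen x (Low r (B + 2 * D + 2 * k) (B + 2 * D + 4 * k) u Θ' (ms1 Lg π) Φ))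
    (hdesc : ∀ L : List (Z N), Good L Lg π B → ∃ L0, Good L0 Lg π B ∧ NoSlide L0 Lg π ∧
      L0.length ≤ L.length ∧ (∀ i, i ∉ Lg → deg L0 i = deg L i) ∧
      Desc Lg π (L.length - L0.length) L L0 ∧ (Orb u L → Orb u L0))
    (hcount : ∀ L0, Good L0 Lg π B → NoSlide L0 Lg π → Orb u L0 → ∀ Δ : ℕ,
      {c : CC N | ∃ L, Tight L ∧ L.length = L0.length + Δ ∧ Desc Lg π Δ L L0 ∧
        c = ConjClasses.mk (FreeGroup.mk L)}.Finite ∧
      {c : CC N | ∃ L, Tight L ∧ L.length = L0.length + Δ ∧ Desc Lg π Δ L L0 ∧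
        c = ConjClasses.mk (FreeGroup.mk L)}.ncard ≤
        ((2 * Δ + 2) * (2 * N * B + 2 * N + 2)) ^ E * (2 * Lg.card - 1) ^ (Δ / 2)) :
    Exp clen x (XL r B u Lg π Φ) := by
  classical
  letI : Fintype Θ := hΘ.fintype
  set S : ℕ → ℝ := fun Δ => (((2 * Δ + 2) * (2 * N * B + 2 * N + 2)) ^ E : ℝ) *
    ((2 * r - 1 : ℕ) : ℝ) ^ (Δ / 2) with hSdef
  have hS0 : ∀ Δ, 0 ≤ S Δ := fun Δ => by simp only [hSdef]; positivity
  obtain ⟨hsum, D, hD1, hsmall⟩ := pw_choiceb (2 * r - 1) x hx hx1 S hS0 1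
    (2 * (2 * N * B + 2 * N + 2)) (2 * (2 * N * B + 2 * N + 2)) (by norm_num) (by positivity)
    (by positivity) E (fun Δ => by
      simp only [hSdef]
      refine le_of_eq ?_
      congr 1
      rw [one_mul]
      congr 1
      ring) (Fintype.card Θ : ℝ)
  refine Exp.level clen (fun (φ : Θ) c => ConjClasses.map φ.1.toMonoidHom c)
    (XL r B u Lg π Φ) (XL0 r B u Lg π Φ)
    (Low r (B + 2 * D + 2 * k) (B + 2 * D + 4 * k) u Θ' (ms1 Lg π) Φ) ?_ ?_ x hx1 (hlow D) D hD1 ?_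
    (fun c c0 => ∃ L L0 : List (Z N), Tight L ∧ L ≠ [] ∧ Tight L0 ∧ L0 ≠ [] ∧ cl L = c ∧ cl L0 = c0 ∧
      Desc Lg π (L.length - L0.length) L L0) S hS0 ?_ ?_ hsum hsmall
  · rintro c ⟨L, h1, h2, h3, _, h5⟩
    exact ⟨L, h1, h2, h3, h5⟩
  · intro n
    refine (finite_cl (N := N) n).subset ?_
    rintro c ⟨⟨L, h1, _, _, rfl⟩, hn⟩
    rw [clen_cl L h1.good.tight h1.good.ne] at hn
    exact ⟨L, hn, rfl⟩
  · rintro c ⟨L, h1, h2, h3, h4, rfl⟩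
    rcases hstep D L h1 h2 h4 with ⟨L1, g1, g2, g3, g4, g5⟩ | ⟨L1, Lg1, π1, g1, g2, g3, g4, g5⟩
    · left
      obtain ⟨φ, hφ, hc⟩ := hrel L1 L g5
      refine ⟨⟨φ, hφ⟩, cl L1, ⟨L1, g1, g2, g4.trans h3, rfl⟩, ?_, ?_⟩
      · rw [clen_cl L1 g1.good.tight g1.good.ne, clen_cl L h1.good.tight h1.good.ne]
        exact g3
      · exact (ConjClasses.mk_eq_mk_iff_isConj.mpr hc.symm)
    · right
      obtain ⟨φ, hφ, hc⟩ := hrel' L1 (embL L) g5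
      refine ⟨φ, Lg1, π1, ms2 L1 Lg1, hφ, g1.bd, ms2_le' g1.good, ?_, cl L1, ⟨L1, g1, g2, rfl, rfl⟩,
        ?_, ?_⟩
      · rw [← h3]; exact g4
      · rw [clen_cl L1 g1.good.tight g1.good.ne, clen_cl L h1.good.tight h1.good.ne]
        exact g3
      · rw [mk_embL] at hc
        exact (ConjClasses.mk_eq_mk_iff_isConj.mpr hc.symm)
  · rintro c ⟨L, h1, h2, h3, rfl⟩
    obtain ⟨L0, g1, g2, g3, g4, g5, g6⟩ := hdesc L h1.good
    obtain ⟨k1, k2⟩ := Sta_slide' h1 g1 g4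
    refine ⟨cl L0, ⟨L0, k1, g6 h2, k2.trans h3, g2, rfl⟩,
      ⟨L, L0, h1.good.tight, h1.good.ne, g1.tight, g1.ne, rfl, rfl, g5⟩, ?_⟩
    rw [clen_cl L0 g1.tight g1.ne, clen_cl L h1.good.tight h1.good.ne]
    exact g3
  · rintro c0 ⟨L00, h1, h2, h3, h4, rfl⟩ Δ
    obtain ⟨hf, hc⟩ := hcount L00 h1.good h4 h2 Δ
    have hsub : {c | (∃ L L0 : List (Z N), Tight L ∧ L ≠ [] ∧ Tight L0 ∧ L0 ≠ [] ∧ cl L = c ∧
        cl L0 = cl L00 ∧ Desc Lg π (L.length - L0.length) L L0) ∧ clen c = clen (cl L00) + Δ} ⊆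
        {c : CC N | ∃ L, Tight L ∧ L.length = L00.length + Δ ∧ Desc Lg π Δ L L00 ∧
        c = ConjClasses.mk (FreeGroup.mk L)} := by
      rintro c ⟨⟨L, L0, t1, t2, t3, t4, rfl, t6, t7⟩, t8⟩
      rw [clen_cl L t1 t2, clen_cl L00 h1.good.tight h1.good.ne] at t8
      have hcj : IsConj (FreeGroup.mk L0) (FreeGroup.mk L00) :=
        ConjClasses.mk_eq_mk_iff_isConj.mp t6
      have hl := m5b_len L0 L00 t3 h1.good.tight hcj
      refine ⟨L, t1, t8, ?_, rfl⟩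
      have hΔ : L.length - L0.length = Δ := by omega
      rw [hΔ] at t7
      exact desc_congr' hcj t7
    refine ⟨hf.subset hsub, ?_⟩
    have e1 := Set.ncard_le_ncard hsub hf
    have e2 : ((2 * Δ + 2) * (2 * N * B + 2 * N + 2)) ^ E * (2 * Lg.card - 1) ^ (Δ / 2) ≤
        ((2 * Δ + 2) * (2 * N * B + 2 * N + 2)) ^ E * (2 * r - 1) ^ (Δ / 2) :=
      Nat.mul_le_mul_left _ (Nat.pow_le_pow_left (by omega) _)
    have e3 := (e1.trans hc).trans e2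
    have e4 : (({c | (∃ L L0 : List (Z N), Tight L ∧ L ≠ [] ∧ Tight L0 ∧ L0 ≠ [] ∧ cl L = c ∧
        cl L0 = cl L00 ∧ Desc Lg π (L.length - L0.length) L L0) ∧
        clen c = clen (cl L00) + Δ}.ncard : ℕ) : ℝ) ≤
        ((((2 * Δ + 2) * (2 * N * B + 2 * N + 2)) ^ E * (2 * r - 1) ^ (Δ / 2) : ℕ) : ℝ) := by
      exact_mod_cast e3
    refine e4.trans (le_of_eq ?_)
    simp only [hSdef]
    push_cast
    rfl

end PW
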