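import Pool.Agent.Helper419.PW.M5b

set_option autoImplicit false

/-! MP_dab459_al, module M5b, part 4: the induction over all levels and the output. -/

namespace PW

variable {N : ℕ}

theorem len_eq_sum_deg (L : List (Z N)) : L.length = ∑ i, deg L i := by
  classical
  induction L with
  | nil => simp [deg]
  | cons a L ih =>
    have h : ∀ i, deg (a :: L) i = deg L i + if a.1 = i then 1 else 0 := by
      intro i
      unfold deg
      rw [List.countP_cons]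
      simp
    simp only [h, Finset.sum_add_distrib, List.length_cons, ih]
    simp

theorem small_len' {B : ℕ} {L : List (Z N)} {π : Z N → ℕ} (h : Good L ∅ π B) :
    L.length ≤ N * B := by
  rw [len_eq_sum_deg]
  refine (Finset.sum_le_sum fun i _ => h.small i (by simp)).trans ?_
  simp

/-- what M5a (structural step), M4 (slides) and M1 (relations) provide -/
structure Hyp (r k : ℕ) (P : ∀ N : ℕ, FreeGroup (Fin N) → Prop) (E : ℕ → ℕ) : Prop where
  succ : ∀ (N : ℕ) (u : FreeGroup (Fin N)), P N u → P (N + 1) (embF u)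
  step : ∀ (N : ℕ) (u : FreeGroup (Fin N)), P N u → ∀ (B : ℕ) (Lg : Finset (Fin N)) (π : Z N → ℕ),
    Lg.Nonempty → ∀ (D : ℕ) (L : List (Z N)), Sta r B L Lg π → Orb u L → NoSlide L Lg π →
      (∃ L1 : List (Z N), Sta r B L1 Lg π ∧ Orb u L1 ∧ L1.length + D ≤ L.length ∧
        ms2 L1 Lg = ms2 L Lg ∧ Rel L1 L) ∨
      (∃ (L1 : List (Z (N + 1))) (Lg1 : Finset (Fin (N + 1))) (π1 : Z (N + 1) → ℕ),
        Sta r (B + 2 * D + 2 * k) L1 Lg1 π1 ∧ Orb (embF u) L1 ∧
        L1.length ≤ L.length + (B + 2 * D + 4 * k) ∧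
        (ms1 Lg1 π1 < ms1 Lg π ∨ (ms1 Lg1 π1 = ms1 Lg π ∧ ms2 L1 Lg1 < ms2 L Lg)) ∧
        Rel L1 (embL L))
  rel : ∀ N : ℕ, ∃ Θ : Set (FreeGroup (Fin N) ≃* FreeGroup (Fin N)), Θ.Finite ∧
    ∀ L1 L : List (Z N), Rel L1 L → ∃ φ ∈ Θ, IsConj (FreeGroup.mk L) (φ (FreeGroup.mk L1))
  desc : ∀ (N : ℕ) (u : FreeGroup (Fin N)), P N u → ∀ (B : ℕ) (Lg : Finset (Fin N)) (π : Z N → ℕ),
    Lg.Nonempty → ∀ L : List (Z N), Good L Lg π B → ∃ L0, Good L0 Lg π B ∧ NoSlide L0 Lg π ∧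
      L0.length ≤ L.length ∧ (∀ i, i ∉ Lg → deg L0 i = deg L i) ∧
      Desc Lg π (L.length - L0.length) L L0 ∧ (Orb u L → Orb u L0)
  count : ∀ (N : ℕ) (u : FreeGroup (Fin N)), P N u → ∀ (B : ℕ) (Lg : Finset (Fin N)) (π : Z N → ℕ),
    Lg.Nonempty → ∀ L0, Good L0 Lg π B → NoSlide L0 Lg π → Orb u L0 → ∀ Δ : ℕ,
      {c : CC N | ∃ L, Tight L ∧ L.length = L0.length + Δ ∧ Desc Lg π Δ L L0 ∧
        c = ConjClasses.mk (FreeGroup.mk L)}.Finite ∧
      {c : CC N | ∃ L, Tight L ∧ L.length = L0.length + Δ ∧ Desc Lg π Δ L L0 ∧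
        c = ConjClasses.mk (FreeGroup.mk L)}.ncard ≤
        ((2 * Δ + 2) * (2 * N * B + 2 * N + 2)) ^ E N * (2 * Lg.card - 1) ^ (Δ / 2)

/-- all levels -/
theorem level_all {r k : ℕ} {P : ∀ N : ℕ, FreeGroup (Fin N) → Prop} {E : ℕ → ℕ}
    (H : Hyp r k P E) (x : ℝ) (hx1 : 1 < x) (hx : Real.sqrt ((2 * r - 1 : ℕ) : ℝ) < x) :
    ∀ (s Φ N : ℕ) (u : FreeGroup (Fin N)), P N u → ∀ (B : ℕ) (Lg : Finset (Fin N)) (π : Z N → ℕ),
      ms1 Lg π = s → Exp clen x (XL r B u Lg π Φ) := by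
  intro s
  induction s using Nat.strong_induction_on with
  | _ s ihs =>
    intro Φ
    induction Φ using Nat.strong_induction_on with
    | _ Φ ihΦ =>
      intro N u hu B Lg π hs
      rcases Lg.eq_empty_or_nonempty with rfl | hne
      · refine Exp.of_finite hx1.le ((finite_cl_le (N := N) (N * B)).subset ?_)
        rintro c ⟨L, h1, _, _, rfl⟩
        exact ⟨L, small_len' h1.good, rfl⟩
      · by_cases hcard : Lg.card ≤ r
        · obtain ⟨Θ, hΘ, hrel⟩ := H.rel N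
          obtain ⟨Θ', hΘ', hrel'⟩ := H.rel (N + 1)
          refine level_one r k x hx1 hx u B Lg π Φ (E N) hne hcard (H.step N u hu B Lg π hne) Θ hΘ hrel
            Θ' hrel' (fun D => ?_) (H.desc N u hu B Lg π hne) (H.count N u hu B Lg π hne)
          refine Low_exp r _ _ u Θ' hΘ' (ms1 Lg π) Φ x hx1 ?_
          intro Lg1 π1 Φ1 hl
          rw [hs] at hl
          rcases hl with hl | ⟨hl, hΦ⟩
          · exact ihs _ hl Φ1 (N + 1) (embF u) (H.succ N u hu) _ Lg1 π1 rfl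
          · exact ihΦ Φ1 hΦ (N + 1) (embF u) (H.succ N u hu) _ Lg1 π1 hl
        · refine (Exp.empty clen x).mono ?_
          rintro c ⟨L, h1, _⟩
          exact absurd h1.card hcard

/-- initial states: `F_r ⊂ F_{r+1}`, the last letter is not used -/
theorem Sta_init' {r : ℕ} (L : List (Z (r + 1))) (hne : L ≠ []) (ht : Tight L)
    (hl : deg L (Fin.last r) = 0) :
    Sta r 0 L (Finset.univ.erase (Fin.last r)) (fun _ => 0) := by
  refine ⟨⟨hne, ht, fun _ _ => rfl, fun _ _ => rfl, fun i hi => ?_⟩, ?_, ⟨Fin.last r, by simp, hl⟩,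
    fun _ => by omega⟩
  · have : i = Fin.last r := by
      by_contra h
      exact hi (by simp [h])
    rw [this, hl]
  · rw [Finset.card_erase_of_mem (Finset.mem_univ _)]
    simp

/-- OUTPUT of M5b: the number of conjugacy classes of length `n` in the orbit, represented by words
in the first `r` letters of `F_{r+1}`, is at most `K x ^ n`. -/
theorem m5b_out {r k : ℕ} {P : ∀ N : ℕ, FreeGroup (Fin N) → Prop} {E : ℕ → ℕ}
    (H : Hyp r k P E) (x : ℝ) (hx1 : 1 < x) (hx : Real.sqrt ((2 * r - 1 : ℕ) : ℝ) < x)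
    (u : FreeGroup (Fin (r + 1))) (hu : P (r + 1) u) :
    ∃ K : ℝ, ∀ n : ℕ,
      {c : ConjClasses (FreeGroup (Fin (r + 1))) | ∃ L : List (Z (r + 1)), Orb u L ∧ Tight L ∧
        L ≠ [] ∧ (∀ i : Fin (r + 1), r ≤ i.val → deg L i = 0) ∧ L.length = n ∧
        ConjClasses.mk (FreeGroup.mk L) = c}.Finite ∧
      ({c : ConjClasses (FreeGroup (Fin (r + 1))) | ∃ L : List (Z (r + 1)), Orb u L ∧ Tight L ∧
        L ≠ [] ∧ (∀ i : Fin (r + 1), r ≤ i.val → deg L i = 0) ∧ L.length = n ∧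
        ConjClasses.mk (FreeGroup.mk L) = c}.ncard : ℝ) ≤ K * x ^ n := by
  obtain ⟨K, _, h⟩ := level_all H x hx1 hx _ 0 (r + 1) u hu 0
    (Finset.univ.erase (Fin.last r)) (fun _ => 0) rfl
  refine ⟨K, fun n => ?_⟩
  have hsub : {c : ConjClasses (FreeGroup (Fin (r + 1))) | ∃ L : List (Z (r + 1)), Orb u L ∧
      Tight L ∧ L ≠ [] ∧ (∀ i : Fin (r + 1), r ≤ i.val → deg L i = 0) ∧ L.length = n ∧
      ConjClasses.mk (FreeGroup.mk L) = c} ⊆
      {c | c ∈ XL r 0 u (Finset.univ.erase (Fin.last r)) (fun _ => 0) 0 ∧ clen c = n} := by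
    rintro c ⟨L, h1, h2, h3, h4, h5, rfl⟩
    have hl : deg L (Fin.last r) = 0 := h4 (Fin.last r) (by simp)
    refine ⟨⟨L, Sta_init' L h3 h2 hl, h1, ?_, rfl⟩, ?_⟩
    · unfold ms2
      refine Finset.sum_eq_zero ?_
      intro i hi
      exfalso
      rw [Finset.mem_filter] at hi
      obtain ⟨_, hi1, hi2⟩ := hi
      have : i = Fin.last r := by
        by_contra hh
        exact hi1 (by simp [hh])
      rw [this, hl] at hi2
      exact lt_irrefl _ hi2
    · have := clen_cl L h2 h3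
      exact this.trans h5
  refine ⟨(h n).1.subset hsub, le_trans ?_ (h n).2⟩
  exact_mod_cast Set.ncard_le_ncard hsub (h n).1

end PW
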